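import Pool.Agent.P.MP_8a22ed_gt.Main

namespace Pool.Agent.Results.MP_8a22ed_gt.CableForm

open Polynomial Pool.Agent.P.MP_8a22ed_gt

theorem result {m : ℕ} (D : Diag m) (q : ℕ) (Δ : ℤ[X]) (hΔ : D.IsAlex (q * m) Δ)
    (hS : Stair Δ) :
    Nat.Coprime q D.lk.natAbs ∧ ∃ Δ₀ : ℤ[X], Stair Δ₀ ∧
      Δ * ∑ i ∈ Finset.range q, X ^ i =
        expand ℤ q Δ₀ * ∑ j ∈ Finset.range q, X ^ (D.lk.natAbs * j) ∧
      ∀ p r : ℕ, p.Prime → q = p ^ (r + 1) → ∀ Δ' : ℤ[X], D.IsAlex m Δ' →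
        ∃ (k : ℕ) (δ : ℤ), (δ = 1 ∨ δ = -1) ∧ Δ'.map (Int.castRingHom (ZMod p)) =
          ((δ : ℤ[X]) * X ^ k * Δ₀).map (Int.castRingHom (ZMod p)) := by
  obtain ⟨hq, hc, hall⟩ := D.cable hΔ hS
  obtain ⟨h1, h2⟩ := of_hall hq hS hall
  exact ⟨hc, _, h1, h2, fun p r hp hr Δ' h' => (D.pp hp hr hΔ hS h').2.2⟩

end Pool.Agent.Results.MP_8a22ed_gt.CableForm
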