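import Pool.Agent.P.MP_8a22ed_gt.Free

namespace Pool.Agent.Results.MP_8a22ed_gt.FreeCyclotomic

open Polynomial Pool.Agent.P.MP_8a22ed_gt

theorem result {m M : ℕ} (D : Diag m) (E : Diag M) (p r s : ℕ) (hp : p.Prime) (hm : 0 < m)
    (hs : 0 < s) (hl : D.lk ≠ 0) (hE : D.IsTwist E (p ^ (r + 1)) s) (Δ g : ℤ[X])
    (hΔ : E.IsAlex M Δ) (hg : D.IsAlexQ (p ^ (r + 1)) s g) (hS : Stair Δ) (hS' : Stair g) :
    g = Δ ∧ ∃ c : Multiset ℕ, (∀ d ∈ c, 0 < d) ∧ Δ = (c.map fun d => cyclotomic d ℤ).prod := by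
  have h := D.free_mod hp hE hm hs hl hΔ hg hS hS'
  have hq : 1 < p ^ (r + 1) := Nat.one_lt_pow (by omega) hp.one_lt
  refine ⟨h, prod_cyc _ Δ rfl (stair_monic hS) (fin_of_closed hS hq fun x hx hf => ?_)⟩
  refine D.free_root hE (by omega) hm hs hl hΔ hg x ?_ (h ▸ hx) hf
  rintro rfl
  rw [← coeff_zero_eq_aeval_zero', hS.1] at hx
  simp at hx

end Pool.Agent.Results.MP_8a22ed_gt.FreeCyclotomic
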