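import Pool.Agent.P.MP_8a22ed_gt.Main

namespace Pool.Agent.Results.MP_8a22ed_gt.QuotientCyclotomic

open Polynomial Pool.Agent.P.MP_8a22ed_gt

theorem result {m : ℕ} (D : Diag m) (p r : ℕ) (hp : p.Prime) (Δ Δ' : ℤ[X])
    (hΔ : D.IsAlex (p ^ (r + 1) * m) Δ) (hΔ' : D.IsAlex m Δ') (hS : Stair Δ) (hS' : Stair Δ') :
    Δ * ∑ i ∈ Finset.range (p ^ (r + 1)), X ^ i =
        expand ℤ (p ^ (r + 1)) Δ' * ∑ j ∈ Finset.range (p ^ (r + 1)), X ^ (D.lk.natAbs * j) ∧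
      ∃ s : Multiset ℕ, (∀ d ∈ s, 0 < d) ∧ Δ = (s.map fun d => cyclotomic d ℤ).prod := by
  obtain ⟨hl, hall, k, δ, -, hk⟩ := D.pp hp rfl hΔ hS hΔ'
  have hq : 1 < p ^ (r + 1) := Nat.one_lt_pow (by omega) hp.one_lt
  generalize p ^ (r + 1) = q at *
  obtain ⟨h1, h2⟩ := of_hall (by omega) hS hall
  rw [← stair_eq' hp hS' h1 hk] at h2
  have hl0 : D.lk.natAbs ≠ 0 := by intro h; rw [h] at hl; exact hl (dvd_zero p)
  have key : ∀ x : ℂ, aeval x Δ = 0 → ¬ IsOfFinOrder x → aeval (x ^ q) Δ' = 0 := by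
    intro x hx hf
    have h3 := congrArg (aeval x) h2
    rw [map_mul, map_mul, hx, zero_mul, expand_aeval] at h3
    refine (mul_eq_zero.1 h3.symm).resolve_right fun h4 => hf ?_
    have h5 := mul_geom_sum (x ^ D.lk.natAbs) q
    simp only [map_sum, map_pow, aeval_X, pow_mul] at h4
    rw [h4, mul_zero, ← pow_mul] at h5
    exact isOfFinOrder_iff_pow_eq_one.2
      ⟨_, Nat.mul_pos (Nat.pos_of_ne_zero hl0) (by omega), (sub_eq_zero.1 h5.symm)⟩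
  have hfin := fin_of_closed hS' hq fun x hx hf => by
    obtain ⟨n, rfl⟩ : ∃ n, q = n + 1 := ⟨q - 1, by omega⟩
    refine key x (D.mura2 n hΔ hΔ' x ?_ hx) hf
    rintro rfl
    rw [← coeff_zero_eq_aeval_zero', hS'.1] at hx
    simp at hx
  refine ⟨h2, prod_cyc _ Δ rfl (stair_monic hS) fun x hx => ?_⟩
  by_contra hf
  exact hf ((isOfFinOrder_pow.1 (hfin _ (key x hx hf))).resolve_right (by omega))

end Pool.Agent.Results.MP_8a22ed_gt.QuotientCyclotomic
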